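import Pool.Agent.R206.TwoCyc

/-!
# `MP_7f1385_an`, Q1 (a): the two-cycle is locally asymptotically stable
-/

set_option autoImplicit false

open Filter Topology

namespace Pool.Agent.Results.MP_7f1385_an.TwoCycleAttracts

/-- The map `T (u, v) = (v, (α + β v + u) / (A + B v + u))`. -/
noncomputable def T (α β A B : ℝ) (z : ℝ × ℝ) : ℝ × ℝ :=
  (z.2, (α + β * z.2 + z.1) / (A + B * z.2 + z.1))

/-- `p` is an asymptotically stable fixed point of `G`. -/
def IsLAS (G : ℝ × ℝ → ℝ × ℝ) (p : ℝ × ℝ) : Prop :=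
  G p = p ∧ (∀ ε > 0, ∃ η > 0, ∀ z : ℝ × ℝ, ‖z - p‖ < η → ∀ k, ‖G^[k] z - p‖ < ε) ∧
    (∃ η > 0, ∀ z : ℝ × ℝ, ‖z - p‖ < η → Tendsto (fun k => G^[k] z) atTop (𝓝 p))

/-- A two-cycle `p, q, p, q, ...` of nonnegative numbers. -/
def TwoCycle (α β A B p q : ℝ) : Prop :=
  0 ≤ p ∧ 0 ≤ q ∧ p ≠ q ∧ T α β A B (p, q) = (q, p) ∧ T α β A B (q, p) = (p, q)

open Pool.Agent.R206.TwoCyc Pool.Agent.R206.Cycle2

/-- the projection -/
def pr (z : Fin 3 → ℝ) : ℝ × ℝ := (z 1, z 0)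

lemma pr_comp (α β A B : ℝ) (z : Fin 3 → ℝ) :
    pr (comp3 (g α β 0 A B 0) z) = T α β A B (pr z) := by
  simp [pr, comp3, g, T]

lemma pr_iter (α β A B : ℝ) (z : Fin 3 → ℝ) (n : ℕ) :
    pr ((comp3 (g α β 0 A B 0) ∘ comp3 (g α β 0 A B 0))^[n] z) =
      (T α β A B ∘ T α β A B)^[n] (pr z) := by
  induction n generalizing z with
  | zero => rfl
  | succ n ih =>
    rw [Function.iterate_succ_apply, Function.iterate_succ_apply, ih]
    simp only [Function.comp_apply, pr_comp]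

lemma pr_norm (z w : Fin 3 → ℝ) : ‖pr z - pr w‖ ≤ ‖z - w‖ := by
  have h0 := norm_le_pi_norm (z - w) 0
  have h1 := norm_le_pi_norm (z - w) 1
  rw [Prod.norm_def]
  exact max_le h1 h0

lemma lift_norm (u v p q : ℝ) : ‖(![v, u, q] : Fin 3 → ℝ) - ![q, p, q]‖ ≤ ‖((u, v) : ℝ × ℝ) - (p, q)‖ := by
  rw [pi_norm_le_iff_of_nonneg (norm_nonneg _)]
  intro i
  fin_cases i
  · exact norm_snd_le ((u, v) - (p, q) : ℝ × ℝ)
  · exact norm_fst_le ((u, v) - (p, q) : ℝ × ℝ)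
  · simp

lemma cycle_pos {α β A B p q : ℝ} (hα : 0 ≤ α) (hA : 0 ≤ A) (hβ : 0 < β) (hB : 0 < B)
    (h : TwoCycle α β A B p q) : 0 < p ∧ 0 < q := by
  obtain ⟨hp, hq, hne, h1, h2⟩ := h
  have e1 : (α + β * q + p) / (A + B * q + p) = p := congrArg Prod.snd h1
  have e2 : (α + β * p + q) / (A + B * p + q) = q := congrArg Prod.snd h2
  have key : ∀ a b : ℝ, 0 ≤ a → 0 ≤ b → a ≠ b → (α + β * b + a) / (A + B * b + a) = a → 0 < a := by
    intro a b ha hb hab e
    rcases eq_or_lt_of_le ha with h0 | h0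
    · exfalso
      have hb0 : 0 < b := lt_of_le_of_ne hb (by rw [h0]; exact hab)
      have : 0 < (α + β * b + a) / (A + B * b + a) := by positivity
      linarith
    · exact h0
  exact ⟨key p q hp hq hne e1, key q p hq hp hne.symm e2⟩

/-- **Statement (a) of Q1 holds.** If `β + A < 1` and `4 α < K` then there is a two-cycle, and
every two-cycle is locally asymptotically stable. -/
theorem result (α β A B : ℝ) (hα : 0 ≤ α) (hA : 0 ≤ A) (hβ : 0 < β) (hB : 0 < B)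
    (hs : β + A < 1)
    (hK : 4 * α < (1 - β - A) * (B * (1 - β - A) - 1 - 3 * β + A)) :
    (∃ p q : ℝ, TwoCycle α β A B p q) ∧
    ∀ p q : ℝ, TwoCycle α β A B p q → IsLAS (T α β A B ∘ T α β A B) (p, q) := by
  have gT : ∀ p q : ℝ, g α β 0 A B 0 ![q, p, q] = (α + β * q + p) / (A + B * q + p) := by
    intro p q
    simp [g]
  refine ⟨?_, ?_⟩
  · obtain ⟨φ, ψ, hφ, hψ, hne, h1, h2⟩ := exists_cycle α β 0 A B 0 hα hβ.le le_rfl hA hB.le le_rfl
      (by linarith) (by linarith) (by linarith)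
    rw [gT] at h1 h2
    refine ⟨φ, ψ, hφ.le, hψ.le, hne, ?_, ?_⟩
    · simp only [T, h1]
    · simp only [T, h2]
  · intro p q h
    obtain ⟨hp, hq⟩ := cycle_pos hα hA hβ hB h
    obtain ⟨-, -, hne, h1, h2⟩ := h
    have e1 : (α + β * q + p) / (A + B * q + p) = p := congrArg Prod.snd h1
    have e2 : (α + β * p + q) / (A + B * p + q) = q := congrArg Prod.snd h2
    obtain ⟨r, hr, C, hC, hst, hat⟩ := las α β 0 A B 0 p q hα hβ.le le_rfl hA hB.le le_rfl
      (by linarith) hp hq hne (by rw [gT]; exact e1) (by rw [gT]; exact e2)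
    have hpr : pr ![q, p, q] = (p, q) := rfl
    refine ⟨by rw [Function.comp_apply, h1, h2], ?_, r, hr, ?_⟩
    · intro ε hε
      refine ⟨min r (ε / C), lt_min hr (by positivity), fun z hz k => ?_⟩
      obtain ⟨u, v⟩ := z
      have hl := lift_norm u v p q
      have h3 := hst ![v, u, q] (lt_of_le_of_lt hl (lt_of_lt_of_le hz (min_le_left _ _))) k
      have h4 : ‖((u, v) : ℝ × ℝ) - (p, q)‖ < ε / C := lt_of_lt_of_le hz (min_le_right _ _)
      have h5 := pr_norm ((comp3 (g α β 0 A B 0) ∘ comp3 (g α β 0 A B 0))^[k] ![v, u, q]) ![q, p, q]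
      rw [pr_iter, hpr] at h5
      have hz' : pr ![v, u, q] = (u, v) := rfl
      rw [hz'] at h5
      rw [lt_div_iff₀ hC] at h4
      calc ‖(T α β A B ∘ T α β A B)^[k] (u, v) - (p, q)‖ ≤ _ := h5
        _ ≤ C * ‖(![v, u, q] : Fin 3 → ℝ) - ![q, p, q]‖ := h3
        _ ≤ C * ‖((u, v) : ℝ × ℝ) - (p, q)‖ := mul_le_mul_of_nonneg_left hl hC.le
        _ < ε := by linarith
    · intro z hz
      obtain ⟨u, v⟩ := z
      have hl := lift_norm u v p q
      have h3 := hat ![v, u, q] (lt_of_le_of_lt hl hz)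
      rw [tendsto_iff_norm_sub_tendsto_zero] at h3 ⊢
      refine squeeze_zero (fun _ => norm_nonneg _) (fun k => ?_) h3
      have h5 := pr_norm ((comp3 (g α β 0 A B 0) ∘ comp3 (g α β 0 A B 0))^[k] ![v, u, q]) ![q, p, q]
      rw [pr_iter, hpr] at h5
      exact h5

end Pool.Agent.Results.MP_7f1385_an.TwoCycleAttracts
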